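import Pool.Agent.Helper28.BA.GoalsA

/-! # BA, packet HESS (A6): pointwise second order facts -/

set_option autoImplicit false

open Complex MeasureTheory Set Filter Topology

namespace Pool.Agent.Helper89.BA

open Pool.Agent.Helper28.BA

/-- the scalar product as a bilinear map -/
noncomputable def dotL : ℂ →L[ℝ] (ℂ →L[ℝ] ℝ) :=
  reCLM.smulRight reCLM + imCLM.smulRight imCLM

theorem dotL_apply (g h : ℂ) : dotL g h = dot g h := by
  simp [dotL, dot]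

theorem dot_eq (g h : ℂ) : dot g h = ((starRingEnd ℂ) g * h).re := by
  simp [dot, Complex.mul_re]

theorem abs_dot_le (g h : ℂ) : |dot g h| ≤ ‖g‖ * ‖h‖ := by
  rw [dot_eq]
  refine (Complex.abs_re_le_norm _).trans ?_
  rw [norm_mul, RCLike.norm_conj]

theorem lin_apply (L : ℂ →L[ℝ] ℂ) (h : ℂ) : L h = (h.re : ℂ) * L 1 + (h.im : ℂ) * L I := by
  have h1 : h = h.re • (1 : ℂ) + h.im • I := by
    rw [real_smul, real_smul, mul_one]
    exact (re_add_im h).symm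
  conv_lhs => rw [h1]
  rw [map_add, map_smul, map_smul, real_smul, real_smul]

theorem lin_apply' (L : ℂ →L[ℝ] ℝ) (h : ℂ) : L h = h.re * L 1 + h.im * L I := by
  have h1 : h = h.re • (1 : ℂ) + h.im • I := by
    rw [real_smul, real_smul, mul_one]
    exact (re_add_im h).symm
  conv_lhs => rw [h1]
  rw [map_add, map_smul, map_smul, smul_eq_mul, smul_eq_mul]

theorem fderiv_eq_dotL (w : ℂ → ℝ) (y : ℂ) : fderiv ℝ w y = dotL (grd w y) := by
  ext1 h
  rw [dotL_apply, lin_apply']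
  simp only [dot, grd]
  ring

/-- the second order Taylor formula -/
theorem taylor2 {w : ℂ → ℝ} (hw : ∀ z, DifferentiableAt ℝ w z) {z : ℂ}
    (hz : DifferentiableAt ℝ (grd w) z) {ε : ℝ} (hε : 0 < ε) :
    ∃ r > 0, ∀ h : ℂ, ‖h‖ < r → |w (z + h) - w z - dot (grd w z) h -
      dot (fderiv ℝ (grd w) z h) h / 2| ≤ ε * ‖h‖ ^ 2 := by
  have h1 := (hasFDerivAt_iff_isLittleO_nhds_zero.1 hz.hasFDerivAt).def hε
  obtain ⟨r, hr, hball⟩ := Metric.eventually_nhds_iff.1 h1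
  refine ⟨r, hr, fun h hh => ?_⟩
  set D := fderiv ℝ (grd w) z with hD
  have hder : ∀ t : ℝ, HasDerivAt (fun t : ℝ => w (z + t • h) - w z - t * dot (grd w z) h -
      t ^ 2 * (dot (D h) h / 2)) (dot (grd w (z + t • h)) h - dot (grd w z) h -
        t * dot (D h) h) t := by
    intro t
    have e1 : HasDerivAt (fun t : ℝ => z + t • h) h t := by
      have := ((hasDerivAt_id t).smul_const h).const_add z
      simpa using this
    have e2 : HasFDerivAt w (dotL (grd w (z + t • h))) (z + t • h) := by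
      rw [← fderiv_eq_dotL]
      exact (hw _).hasFDerivAt
    have e3 := e2.comp_hasDerivAt t e1
    rw [dotL_apply] at e3
    have e4 : HasDerivAt (fun t : ℝ => t * dot (grd w z) h) (dot (grd w z) h) t := by
      simpa using (hasDerivAt_id t).mul_const (dot (grd w z) h)
    have e5 : HasDerivAt (fun t : ℝ => t ^ 2 * (dot (D h) h / 2)) (t * dot (D h) h) t := by
      have h2 := (hasDerivAt_pow 2 t).mul_const (dot (D h) h / 2)
      simp only [Nat.cast_ofNat, Nat.add_one_sub_one, pow_one] at h2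
      have h3 : 2 * t * (dot (D h) h / 2) = t * dot (D h) h := by ring
      rw [h3] at h2
      exact h2
    exact ((e3.sub_const (w z)).sub e4).sub e5
  have hb : ∀ t ∈ Ico (0 : ℝ) 1, ‖dot (grd w (z + t • h)) h - dot (grd w z) h -
      t * dot (D h) h‖ ≤ ε * ‖h‖ ^ 2 := by
    intro t ht
    have ht0 : 0 ≤ t := ht.1
    have ht1 : t ≤ 1 := ht.2.le
    have e1 : ‖t • h‖ = t * ‖h‖ := by rw [norm_smul, Real.norm_of_nonneg ht0]
    have e2 : ‖t • h‖ ≤ ‖h‖ := by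
      rw [e1]
      calc t * ‖h‖ ≤ 1 * ‖h‖ := mul_le_mul_of_nonneg_right ht1 (norm_nonneg _)
        _ = ‖h‖ := one_mul _
    have e3 := hball (y := t • h) (by rw [dist_zero_right]; exact e2.trans_lt hh)
    have e4 : dot (grd w (z + t • h)) h - dot (grd w z) h - t * dot (D h) h =
        dot (grd w (z + t • h) - grd w z - D (t • h)) h := by
      rw [map_smul]
      simp only [dot, sub_re, sub_im, smul_re, smul_im, smul_eq_mul]
      ring
    rw [e4, Real.norm_eq_abs]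
    refine (abs_dot_le _ _).trans ?_
    calc ‖grd w (z + t • h) - grd w z - D (t • h)‖ * ‖h‖ ≤ ε * ‖t • h‖ * ‖h‖ :=
          mul_le_mul_of_nonneg_right e3 (norm_nonneg _)
      _ ≤ ε * ‖h‖ * ‖h‖ := by gcongr
      _ = ε * ‖h‖ ^ 2 := by ring
  have h2 := norm_image_sub_le_of_norm_deriv_le_segment_01'
    (fun t _ => (hder t).hasDerivWithinAt) hb
  rw [Real.norm_eq_abs] at h2
  have h3 : w (z + h) - w z - dot (grd w z) h - dot (D h) h / 2 =
      (w (z + (1 : ℝ) • h) - w z - 1 * dot (grd w z) h - 1 ^ 2 * (dot (D h) h / 2)) -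
      (w (z + (0 : ℝ) • h) - w z - 0 * dot (grd w z) h - 0 ^ 2 * (dot (D h) h / 2)) := by
    rw [one_smul, zero_smul, add_zero]
    ring
  rw [h3]
  exact h2

theorem dot_smul_sq (L : ℂ →L[ℝ] ℂ) (t : ℝ) (h : ℂ) :
    dot (L (t • h)) (t • h) = t ^ 2 * dot (L h) h := by
  rw [map_smul]
  simp only [dot, smul_re, smul_im, smul_eq_mul]
  ring

theorem dot_neg' (a h : ℂ) : dot a (-h) = -dot a h := by
  simp only [dot, neg_re, neg_im]; ring

/-- the symmetric second difference -/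
theorem second_diff {w : ℂ → ℝ} (hw : ∀ z, DifferentiableAt ℝ w z) {z : ℂ}
    (hz : DifferentiableAt ℝ (grd w) z) (h : ℂ) {ε : ℝ} (hε : 0 < ε) :
    ∃ t : ℝ, 0 < t ∧ |w (z + t • h) + w (z - t • h) - 2 * w z -
      t ^ 2 * dot (fderiv ℝ (grd w) z h) h| ≤ t ^ 2 * ε := by
  set ε' : ℝ := ε / (2 * (‖h‖ ^ 2 + 1)) with hε'
  have hpos : 0 < ‖h‖ ^ 2 + 1 := by positivity
  have hε'0 : 0 < ε' := by rw [hε']; positivity
  obtain ⟨r, hr, hT⟩ := taylor2 hw hz hε'0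
  have hh1 : 0 < ‖h‖ + 1 := by positivity
  set t : ℝ := r / (‖h‖ + 1) / 2 with ht
  have ht0 : 0 < t := by rw [ht]; positivity
  have hlt : ‖t • h‖ < r := by
    rw [norm_smul, Real.norm_of_nonneg ht0.le]
    have h1 : t * (‖h‖ + 1) = r / 2 := by rw [ht]; field_simp
    nlinarith [norm_nonneg h]
  refine ⟨t, ht0, ?_⟩
  have h1 := hT (t • h) hlt
  have h2 := hT (-(t • h)) (by rw [norm_neg]; exact hlt)
  rw [dot_smul_sq] at h1
  have h3 : -(t • h) = (-t) • h := (neg_smul t h).symm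
  rw [norm_neg] at h2
  have h4 : dot (fderiv ℝ (grd w) z (-(t • h))) (-(t • h)) =
      t ^ 2 * dot (fderiv ℝ (grd w) z h) h := by
    rw [h3, dot_smul_sq, neg_sq]
  rw [h4, dot_neg', ← sub_eq_add_neg] at h2
  have h5 : ‖t • h‖ ^ 2 = t ^ 2 * ‖h‖ ^ 2 := by
    rw [norm_smul, Real.norm_of_nonneg ht0.le, mul_pow]
  have h6 : ε' * (t ^ 2 * ‖h‖ ^ 2) * 2 ≤ t ^ 2 * ε := by
    have h7 : ε' * ‖h‖ ^ 2 * 2 ≤ ε := by
      have h8 : ε' * (‖h‖ ^ 2 + 1) * 2 = ε := by rw [hε']; field_simp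
      nlinarith
    have h9 := mul_le_mul_of_nonneg_left h7 (sq_nonneg t)
    linarith
  rw [h5] at h1 h2
  rw [abs_le] at h1 h2 ⊢
  constructor <;> linarith [h1.1, h1.2, h2.1, h2.2]

theorem par_law (z h : ℂ) : ‖z + h‖ ^ 2 + ‖z - h‖ ^ 2 = 2 * ‖z‖ ^ 2 + 2 * ‖h‖ ^ 2 := by
  have := parallelogram_law_with_norm ℝ z h
  linarith

theorem mid_ineq {F : ℂ → ℝ} (hF : ConvexOn ℝ univ F) (z h : ℂ) :
    2 * F z ≤ F (z + h) + F (z - h) := by
  have h1 := hF.2 (mem_univ (z + h)) (mem_univ (z - h)) (by norm_num : (0 : ℝ) ≤ 1 / 2)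
    (by norm_num : (0 : ℝ) ≤ 1 / 2) (by norm_num)
  have h2 : (1 / 2 : ℝ) • (z + h) + (1 / 2 : ℝ) • (z - h) = z := by
    rw [← smul_add]
    have : z + h + (z - h) = (2 : ℝ) • z := by rw [two_smul]; ring
    rw [this, smul_smul]
    norm_num
  rw [h2] at h1
  simp only [smul_eq_mul] at h1
  linarith

theorem up_bound {w : ℂ → ℝ} (hup : Up w) (hw : ∀ z, DifferentiableAt ℝ w z) {z : ℂ}
    (hz : DifferentiableAt ℝ (grd w) z) (h : ℂ) :
    -‖h‖ ^ 2 ≤ dot (fderiv ℝ (grd w) z h) h := by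
  refine le_of_forall_pos_le_add fun ε hε => ?_
  obtain ⟨t, ht, hb⟩ := second_diff hw hz h hε
  have h1 := mid_ineq hup z (t • h)
  have h2 := par_law z (t • h)
  have h5 : ‖t • h‖ ^ 2 = t ^ 2 * ‖h‖ ^ 2 := by
    rw [norm_smul, Real.norm_of_nonneg ht.le, mul_pow]
  rw [h5] at h2
  have h3 := (abs_le.1 hb).2
  have h4 : t ^ 2 * (-‖h‖ ^ 2) ≤ t ^ 2 * (dot (fderiv ℝ (grd w) z h) h + ε) := by linarith
  exact le_of_mul_le_mul_left h4 (by positivity)

theorem dn_bound {w : ℂ → ℝ} (hdn : Dn w) (hw : ∀ z, DifferentiableAt ℝ w z) {z : ℂ}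
    (hz : DifferentiableAt ℝ (grd w) z) (h : ℂ) :
    dot (fderiv ℝ (grd w) z h) h ≤ ‖h‖ ^ 2 := by
  refine le_of_forall_pos_le_add fun ε hε => ?_
  obtain ⟨t, ht, hb⟩ := second_diff hw hz h hε
  have h1 := mid_ineq hdn z (t • h)
  have h2 := par_law z (t • h)
  have h5 : ‖t • h‖ ^ 2 = t ^ 2 * ‖h‖ ^ 2 := by
    rw [norm_smul, Real.norm_of_nonneg ht.le, mul_pow]
  rw [h5] at h2
  have h3 := (abs_le.1 hb).1
  have h4 : t ^ 2 * dot (fderiv ℝ (grd w) z h) h ≤ t ^ 2 * (‖h‖ ^ 2 + ε) := by linarith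
  exact le_of_mul_le_mul_left h4 (by positivity)

/-- symmetry of the second derivative -/
theorem symm_im {w : ℂ → ℝ} (hw : ∀ z, DifferentiableAt ℝ w z) {z : ℂ}
    (hz : DifferentiableAt ℝ (grd w) z) :
    (fderiv ℝ (grd w) z 1).im = (fderiv ℝ (grd w) z I).re := by
  have h1 : ∀ y, HasFDerivAt w (dotL (grd w y)) y := fun y => by
    rw [← fderiv_eq_dotL]
    exact (hw _).hasFDerivAt
  have h2 : HasFDerivAt (fun y => dotL (grd w y)) (dotL.comp (fderiv ℝ (grd w) z)) z :=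
    dotL.hasFDerivAt.comp z hz.hasFDerivAt
  have h3 := second_derivative_symmetric h1 h2 1 I
  simp only [ContinuousLinearMap.comp_apply, dotL_apply, dot, one_re, one_im, I_re, I_im] at h3
  linarith

/-- the quadratic form in terms of `dz` and `db` -/
theorem quad_eq {w : ℂ → ℝ} (hw : ∀ z, DifferentiableAt ℝ w z) {z : ℂ}
    (hz : DifferentiableAt ℝ (grd w) z) (h : ℂ) :
    dot (fderiv ℝ (grd w) z h) h = (dz (grd w) z).re * ‖h‖ ^ 2 +
      ((starRingEnd ℂ) (db (grd w) z) * h ^ 2).re := by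
  have hs := symm_im hw hz
  have e1 := lin_apply (fderiv ℝ (grd w) z) h
  have e2 : ‖h‖ ^ 2 = h.re * h.re + h.im * h.im := by
    rw [← Complex.normSq_eq_norm_sq, Complex.normSq_apply]
  have e3 : (dz (grd w) z).re = ((fderiv ℝ (grd w) z 1).re + (fderiv ℝ (grd w) z I).im) / 2 := by
    unfold dz
    rw [show (1 / 2 : ℂ) = ((1 / 2 : ℝ) : ℂ) by push_cast; ring, re_ofReal_mul, sub_re, mul_re,
      I_re, I_im]
    ring
  have e4 : (db (grd w) z).re = ((fderiv ℝ (grd w) z 1).re - (fderiv ℝ (grd w) z I).im) / 2 := by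
    unfold db
    rw [show (1 / 2 : ℂ) = ((1 / 2 : ℝ) : ℂ) by push_cast; ring, re_ofReal_mul, add_re, mul_re,
      I_re, I_im]
    ring
  have e5 : (db (grd w) z).im = ((fderiv ℝ (grd w) z 1).im + (fderiv ℝ (grd w) z I).re) / 2 := by
    unfold db
    rw [show (1 / 2 : ℂ) = ((1 / 2 : ℝ) : ℂ) by push_cast; ring, im_ofReal_mul, add_im, mul_im,
      I_re, I_im]
    ring
  rw [e1, e2, mul_re, conj_re, conj_im, sq, mul_re, mul_im, e3, e4, e5]
  simp only [dot, add_re, add_im, mul_re, mul_im, ofReal_re, ofReal_im]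
  rw [hs]
  ring

/-- the form attains `σ + |δ|` -/
theorem top_dir (δ : ℂ) : ∃ h : ℂ, h ≠ 0 ∧ ((starRingEnd ℂ) δ * h ^ 2).re = ‖δ‖ * ‖h‖ ^ 2 := by
  by_cases hδ : δ = 0
  · exact ⟨1, one_ne_zero, by simp [hδ]⟩
  · obtain ⟨h, hh⟩ := IsAlgClosed.exists_pow_nat_eq δ (n := 2) (by norm_num)
    refine ⟨h, ?_, ?_⟩
    · rintro rfl
      exact hδ (by rw [← hh]; norm_num)
    · have h1 : ‖h‖ ^ 2 = ‖δ‖ := by rw [← norm_pow, hh]
      rw [hh, h1, ← Complex.normSq_eq_conj_mul_self, ofReal_re, Complex.normSq_eq_norm_sq, sq]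

theorem bot_dir (δ : ℂ) :
    ∃ h : ℂ, h ≠ 0 ∧ ((starRingEnd ℂ) δ * h ^ 2).re = -(‖δ‖ * ‖h‖ ^ 2) := by
  obtain ⟨h, h0, hh⟩ := top_dir (-δ)
  refine ⟨h, h0, ?_⟩
  rw [norm_neg, map_neg, neg_mul, neg_re] at hh
  linarith

theorem abs_form_le (δ h : ℂ) : ((starRingEnd ℂ) δ * h ^ 2).re ≤ ‖δ‖ * ‖h‖ ^ 2 := by
  refine (Complex.re_le_norm _).trans ?_
  rw [norm_mul, RCLike.norm_conj, norm_pow]

/-- **HESS (A6)** -/
theorem HESS : S_HESS := by
  intro u w hup hdn hsub hw z hz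
  have hs := symm_im hw hz
  set σ : ℝ := (dz (grd w) z).re with hσ
  set δ : ℂ := db (grd w) z with hδ
  have hQ : ∀ h, dot (fderiv ℝ (grd w) z h) h = σ * ‖h‖ ^ 2 + ((starRingEnd ℂ) δ * h ^ 2).re :=
    fun h => quad_eq hw hz h
  refine ⟨?_, ?_, ?_⟩
  · unfold dz
    rw [show (1 / 2 : ℂ) = ((1 / 2 : ℝ) : ℂ) by push_cast; ring, im_ofReal_mul, sub_im, mul_im,
      I_re, I_im, hs]
    ring
  · obtain ⟨h1, h10, e1⟩ := top_dir δ
    obtain ⟨h2, h20, e2⟩ := bot_dir δ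
    have n1 : 0 < ‖h1‖ ^ 2 := by have := norm_pos_iff.2 h10; positivity
    have n2 : 0 < ‖h2‖ ^ 2 := by have := norm_pos_iff.2 h20; positivity
    have a1 := dn_bound hdn hw hz h1
    have a2 := up_bound hup hw hz h2
    rw [hQ, e1] at a1
    rw [hQ, e2] at a2
    have b1 : (σ + ‖δ‖) * ‖h1‖ ^ 2 ≤ 1 * ‖h1‖ ^ 2 := by linarith
    have b2 : (-1) * ‖h2‖ ^ 2 ≤ (σ - ‖δ‖) * ‖h2‖ ^ 2 := by linarith
    have c1 := le_of_mul_le_mul_right b1 n1
    have c2 := le_of_mul_le_mul_right b2 n2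
    rcases abs_cases σ with ⟨e, _⟩ | ⟨e, _⟩ <;> rw [e] <;> linarith
  · intro huw
    obtain ⟨h1, h10, e1⟩ := top_dir δ
    have n1 : 0 < ‖h1‖ ^ 2 := by have := norm_pos_iff.2 h10; positivity
    have a1 := dn_bound hdn hw hz h1
    rw [hQ, e1] at a1
    have b1 : (σ + ‖δ‖) * ‖h1‖ ^ 2 ≤ 1 * ‖h1‖ ^ 2 := by linarith
    have c1 := le_of_mul_le_mul_right b1 n1
    by_contra hne
    have hlt : σ + ‖δ‖ < 1 := lt_of_le_of_ne c1 hne
    set ε : ℝ := (1 - (σ + ‖δ‖)) / 2 with hε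
    have hε0 : 0 < ε := by rw [hε]; linarith
    obtain ⟨r, hr, hT⟩ := taylor2 hw hz (ε := ε / 2) (by linarith)
    obtain ⟨x, hx, hlt'⟩ := hsub z huw ε (grd w z) r hε0 hr
    have d1 := hT (x - z) hx
    rw [hQ, add_sub_cancel] at d1
    have d2 := (abs_le.1 d1).2
    have d3 := abs_form_le δ (x - z)
    have d4 : σ + ‖δ‖ = 1 - 2 * ε := by rw [hε]; ring
    have d5 : (σ + ‖δ‖) * ‖x - z‖ ^ 2 = (1 - 2 * ε) * ‖x - z‖ ^ 2 := by rw [d4]
    nlinarith

end Pool.Agent.Helper89.BA
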