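import Pool.Agent.Helper28.BA.GoalsB
import Pool.Agent.Helper89.BA.HESS

/-! # BA, packet POT (B4): potential of a curl free field -/

set_option autoImplicit false

open Complex MeasureTheory Set Filter Topology

namespace Pool.Agent.Helper89.BA

open Pool.Agent.Helper28.BA

theorem preconn_outside {R : ℝ} (hR : 0 ≤ R) : IsPreconnected {z : ℂ | R < ‖z‖} := by
  have h1 : {z : ℂ | R < ‖z‖} = (fun p : ℝ × ℝ => (p.1 : ℂ) * exp (p.2 * I)) ''
      (Ioi R ×ˢ univ) := by
    ext z
    constructor
    · intro hz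
      exact ⟨(‖z‖, arg z), ⟨hz, mem_univ _⟩, norm_mul_exp_arg_mul_I z⟩
    · rintro ⟨⟨r, θ⟩, ⟨hr, _⟩, rfl⟩
      have hr' : R < r := hr
      simp only [mem_setOf_eq, norm_mul, norm_exp_ofReal_mul_I, mul_one, norm_real,
        Real.norm_eq_abs]
      exact hr'.trans_le (le_abs_self r)
  rw [h1]
  refine ((convex_Ioi R).isPreconnected.prod isPreconnected_univ).image _ ?_
  fun_prop

/-- **POT (B4)** -/
theorem POT : S_POT := by
  intro f hf hsupp hcurl
  have hfd : Differentiable ℝ f := hf.differentiable one_ne_zero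
  -- the form
  have hω : Differentiable ℝ (fun z => dotL (f z)) := fun z =>
    (dotL.hasFDerivAt.comp z (hfd z).hasFDerivAt).differentiableAt
  have hdω : ∀ z, fderiv ℝ (fun z => dotL (f z)) z = dotL.comp (fderiv ℝ f z) := fun z =>
    (dotL.hasFDerivAt.comp z (hfd z).hasFDerivAt).fderiv
  have hsym : ∀ z, (fderiv ℝ f z 1).im = (fderiv ℝ f z I).re := by
    intro z
    have h1 := hcurl z
    unfold dz at h1
    rw [show (1 / 2 : ℂ) = ((1 / 2 : ℝ) : ℂ) by push_cast; ring, im_ofReal_mul, sub_im, mul_im,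
      I_re, I_im] at h1
    linarith
  obtain ⟨u0, hu0⟩ := (convex_univ (𝕜 := ℝ) (E := ℂ)).exists_forall_hasFDerivAt_of_fderiv_symmetric
    isOpen_univ hω.differentiableOn (by
      intro z _ x y
      rw [hdω]
      simp only [ContinuousLinearMap.comp_apply, dotL_apply, dot]
      rw [lin_apply (fderiv ℝ f z) x, lin_apply (fderiv ℝ f z) y]
      simp only [add_re, add_im, mul_re, mul_im, ofReal_re, ofReal_im]
      rw [hsym z]
      ring)
  have hu0' : ∀ z, HasFDerivAt u0 (dotL (f z)) z := fun z => hu0 z (mem_univ z)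
  obtain ⟨ρ, hρ⟩ := hsupp.isCompact.isBounded.subset_closedBall (0 : ℂ)
  have hout : ∀ z : ℂ, |ρ| < ‖z‖ → f z = 0 := by
    intro z hz
    by_contra h0
    have h1 := hρ (subset_tsupport f h0)
    rw [mem_closedBall_zero_iff] at h1
    linarith [le_abs_self ρ]
  obtain ⟨c, hc⟩ := IsOpen.exists_is_const_of_fderiv_eq_zero (𝕜 := ℝ) (f := u0)
    (isOpen_lt continuous_const continuous_norm) (preconn_outside (abs_nonneg ρ))
    (fun z _ => (hu0' z).differentiableAt.differentiableWithinAt) (by
      intro z hz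
      rw [(hu0' z).fderiv, hout z hz, map_zero]
      rfl)
  refine ⟨fun z => u0 z - c, ?_, ?_, ?_⟩
  · have h1 : ContDiff ℝ 1 (fun z => dotL (f z)) := dotL.contDiff.comp hf
    have h2 : ContDiff ℝ (1 + 1) u0 := by
      rw [contDiff_succ_iff_fderiv]
      refine ⟨fun z => (hu0' z).differentiableAt, by simp, ?_⟩
      have h3 : fderiv ℝ u0 = fun z => dotL (f z) := funext fun z => (hu0' z).fderiv
      rw [h3]
      exact h1
    have h4 : ContDiff ℝ 2 u0 := by
      have : (2 : WithTop ℕ∞) = 1 + 1 := by norm_num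
      rw [this]
      exact h2
    exact h4.sub contDiff_const
  · refine HasCompactSupport.intro (isCompact_closedBall (0 : ℂ) |ρ|) fun z hz => ?_
    rw [mem_closedBall_zero_iff, not_le] at hz
    rw [hc z hz, sub_self]
  · funext z
    have h1 : fderiv ℝ (fun z => u0 z - c) z = dotL (f z) := ((hu0' z).sub_const c).fderiv
    unfold grd
    rw [h1, dotL_apply, dotL_apply]
    apply Complex.ext <;> simp [dot]

end Pool.Agent.Helper89.BA
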