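import Pool.Agent.Helper28.BA.GoalsB

/-! # BA, packet SIMP (B17): approximation by simple functions -/

set_option autoImplicit false

open Complex MeasureTheory Set Filter Topology

namespace Pool.Agent.Helper89.BA

open Pool.Agent.Helper28.BA

/-- the index of the cell of side `s` that contains `z` -/
noncomputable def cellOf (s : ℝ) (z : ℂ) : ℤ × ℤ := (⌊z.re / s⌋, ⌊z.im / s⌋)

/-- the centre of a cell -/
noncomputable def ctr (s : ℝ) (p : ℤ × ℤ) : ℂ := ⟨s * (p.1 + 1 / 2), s * (p.2 + 1 / 2)⟩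

theorem measurable_cellOf (s : ℝ) : Measurable (cellOf s) := by
  unfold cellOf
  exact ((Complex.measurable_re.div_const s).floor).prodMk
    ((Complex.measurable_im.div_const s).floor)

theorem norm_sub_ctr {s : ℝ} (hs : 0 < s) (z : ℂ) : ‖z - ctr s (cellOf s z)‖ ≤ s := by
  refine (Complex.norm_le_abs_re_add_abs_im _).trans ?_
  have key : ∀ x : ℝ, |x - s * ((⌊x / s⌋ : ℤ) + 1 / 2)| ≤ s / 2 := by
    intro x
    have h1 := Int.floor_le (x / s)
    have h2 := Int.lt_floor_add_one (x / s)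
    rw [le_div_iff₀ hs] at h1
    rw [div_lt_iff₀ hs] at h2
    rw [abs_le]
    constructor <;> nlinarith
  have h1 := key z.re
  have h2 := key z.im
  simp only [cellOf, ctr, sub_re, sub_im]
  linarith

theorem cellOf_ball {s : ℝ} (hs : 0 < s) (p : ℤ × ℤ) :
    Metric.ball (ctr s p) (s / 2) ⊆ cellOf s ⁻¹' {p} := by
  intro z hz
  rw [mem_ball_iff_norm] at hz
  have key : ∀ (x : ℝ) (a : ℤ), |x - s * (a + 1 / 2)| < s / 2 → ⌊x / s⌋ = a := by
    intro x a h
    rw [abs_lt] at h
    rw [Int.floor_eq_iff]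
    constructor
    · rw [le_div_iff₀ hs]; nlinarith [h.1, h.2]
    · rw [div_lt_iff₀ hs]; nlinarith [h.1, h.2]
  have h1 := key z.re p.1 ((Complex.abs_re_le_norm (z - ctr s p)).trans_lt hz)
  have h2 := key z.im p.2 ((Complex.abs_im_le_norm (z - ctr s p)).trans_lt hz)
  rw [mem_preimage, mem_singleton_iff]
  exact Prod.ext h1 h2

theorem sum_ind {n : ℕ} (F : Finset (ℤ × ℤ)) (e : Fin n ≃ {p // p ∈ F}) (s : ℝ)
    (x : ℤ × ℤ → ℂ) (z : ℂ) :
    ∑ j, (cellOf s ⁻¹' {((e j : {p // p ∈ F}) : ℤ × ℤ)}).indicator (fun _ => x (e j)) z =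
      if cellOf s z ∈ F then x (cellOf s z) else 0 := by
  have h1 : ∑ j, (cellOf s ⁻¹' {((e j : {p // p ∈ F}) : ℤ × ℤ)}).indicator
      (fun _ => x (e j)) z = ∑ p : {p // p ∈ F}, if cellOf s z = (p : ℤ × ℤ) then x p else 0 := by
    rw [← e.sum_comp]
    refine Finset.sum_congr rfl fun j _ => ?_
    simp only [indicator, mem_preimage, mem_singleton_iff]
  rw [h1, Finset.sum_coe_sort F (fun p => if cellOf s z = p then x p else 0),
    Finset.sum_ite_eq]

/-- **SIMP (B17)** -/
theorem SIMP : S_SIMP := by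
  intro h hh hsupp r₁ r₂ r₃ ε hr₁ hr₂ hr₃ hε
  obtain ⟨ρ, hρ⟩ := hsupp.isCompact.isBounded.subset_closedBall (0 : ℂ)
  have hρ0 : 0 ≤ |ρ| := abs_nonneg ρ
  have hout : ∀ z : ℂ, |ρ| < ‖z‖ → h z = 0 := by
    intro z hz
    by_contra h0
    have h1 := hρ (subset_tsupport h h0)
    rw [mem_closedBall_zero_iff] at h1
    linarith [le_abs_self ρ]
  set B : ℝ := 2 * (|ρ| + 4) with hB
  set vol : ℝ := (volume (Metric.closedBall (0 : ℂ) B)).toReal with hvol
  have hvol0 : 0 ≤ vol := ENNReal.toReal_nonneg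
  set η : ℝ := min 1 (ε / (vol + 1)) with hη
  have hη0 : 0 < η := lt_min one_pos (by positivity)
  have hη1 : η ≤ 1 := min_le_left _ _
  have hηv : η * vol ≤ ε := by
    have h1 : η ≤ ε / (vol + 1) := min_le_right _ _
    have h2 : η * (vol + 1) ≤ ε := (le_div_iff₀ (by positivity)).1 h1
    nlinarith
  obtain ⟨δ, hδ, hunif⟩ := Metric.uniformContinuous_iff.1
    (HasCompactSupport.uniformContinuous_of_continuous hsupp hh) η hη0
  set s : ℝ := min 1 (δ / 2) with hs
  have hs0 : 0 < s := lt_min one_pos (by positivity)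
  have hs1 : s ≤ 1 := min_le_left _ _
  have hsδ : s < δ := lt_of_le_of_lt (min_le_right _ _) (by linarith)
  set m : ℤ := ⌈|ρ| / s⌉ + 1 with hm
  have hm1 : |ρ| + s ≤ s * m := by
    have h1 := Int.le_ceil (|ρ| / s)
    rw [div_le_iff₀ hs0] at h1
    rw [hm]; push_cast
    nlinarith
  have hm2 : s * m ≤ |ρ| + 2 := by
    have h1 := Int.ceil_lt_add_one (|ρ| / s)
    have h2 : s * (⌈|ρ| / s⌉ : ℤ) ≤ |ρ| + s := by
      have h3 : s * (|ρ| / s + 1) = |ρ| + s := by field_simp
      rw [← h3]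
      exact mul_le_mul_of_nonneg_left h1.le hs0.le
    rw [hm]; push_cast
    nlinarith
  set F : Finset (ℤ × ℤ) := Finset.Icc (-m) m ×ˢ Finset.Icc (-m) m with hF
  have hFout : ∀ z : ℂ, cellOf s z ∉ F → h z = 0 := by
    intro z hz
    apply hout
    by_contra hle
    apply hz
    have key : ∀ x : ℝ, |x| ≤ |ρ| → ⌊x / s⌋ ∈ Finset.Icc (-m) m := by
      intro x hx
      rw [Finset.mem_Icc]
      have h1 := abs_le.1 hx
      constructor
      · rw [Int.le_floor, le_div_iff₀ hs0]; push_cast; nlinarith [h1.1]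
      · have h2 : ⌊x / s⌋ < m + 1 := by
          rw [Int.floor_lt, div_lt_iff₀ hs0]; push_cast; nlinarith [h1.2]
        omega
    rw [hF, Finset.mem_product]
    exact ⟨key _ ((Complex.abs_re_le_norm z).trans (not_lt.1 hle)),
      key _ ((Complex.abs_im_le_norm z).trans (not_lt.1 hle))⟩
  have hFin : ∀ z : ℂ, cellOf s z ∈ F → ‖z‖ ≤ B := by
    intro z hz
    rw [hF, Finset.mem_product] at hz
    have key : ∀ x : ℝ, ⌊x / s⌋ ∈ Finset.Icc (-m) m → |x| ≤ |ρ| + 4 := by
      intro x hx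
      rw [Finset.mem_Icc] at hx
      have h1 : (-(m : ℝ)) ≤ (⌊x / s⌋ : ℤ) := by exact_mod_cast hx.1
      have h2 : ((⌊x / s⌋ : ℤ) : ℝ) ≤ m := by exact_mod_cast hx.2
      have h3 := Int.floor_le (x / s)
      have h4 := Int.lt_floor_add_one (x / s)
      rw [le_div_iff₀ hs0] at h3
      rw [div_lt_iff₀ hs0] at h4
      rw [abs_le]
      constructor <;> nlinarith
    have h1 := key _ hz.1
    have h2 := key _ hz.2
    refine (Complex.norm_le_abs_re_add_abs_im _).trans ?_
    rw [hB]; linarith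
  -- the approximation
  obtain ⟨n, ⟨e⟩⟩ : ∃ n : ℕ, Nonempty (Fin n ≃ {p // p ∈ F}) :=
    ⟨_, ⟨(Fintype.equivFin {p // p ∈ F}).symm⟩⟩
  have hdiff : ∀ z : ℂ, ‖∑ j, (cellOf s ⁻¹' {((e j : {p // p ∈ F}) : ℤ × ℤ)}).indicator
      (fun _ => h (ctr s (e j))) z - h z‖ ≤ (Metric.closedBall (0 : ℂ) B).indicator
        (fun _ => η) z := by
    intro z
    rw [sum_ind F e s (fun p => h (ctr s p)) z]
    by_cases hz : cellOf s z ∈ F
    · rw [if_pos hz, indicator_of_mem (mem_closedBall_zero_iff.2 (hFin z hz))]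
      have h1 : dist (ctr s (cellOf s z)) z < δ := by
        rw [dist_comm, dist_eq_norm]
        exact (norm_sub_ctr hs0 z).trans_lt hsδ
      have h2 := hunif h1
      rw [dist_eq_norm] at h2
      exact h2.le
    · rw [if_neg hz, hFout z hz, sub_zero, norm_zero]
      exact indicator_nonneg (fun _ _ => hη0.le) z
  have hint : ∀ r : ℝ, 1 < r → ∫ z, ‖∑ j, (cellOf s ⁻¹'
      {((e j : {p // p ∈ F}) : ℤ × ℤ)}).indicator (fun _ => h (ctr s (e j))) z - h z‖ ^ r ≤ ε := by
    intro r hr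
    have h1 : ∫ z : ℂ, (Metric.closedBall (0 : ℂ) B).indicator (fun _ => η) z = η * vol := by
      rw [integral_indicator Metric.isClosed_closedBall.measurableSet, setIntegral_const,
        smul_eq_mul, mul_comm]
      rfl
    refine le_trans ?_ (h1.le.trans hηv)
    refine integral_mono_of_nonneg (Filter.Eventually.of_forall fun z => by positivity) ?_
      (Filter.Eventually.of_forall fun z => ?_)
    · refine (integrable_indicator_iff Metric.isClosed_closedBall.measurableSet).2 ?_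
      exact integrableOn_const (isCompact_closedBall (0 : ℂ) B).measure_lt_top.ne
    · have h2 := hdiff z
      by_cases hz : z ∈ Metric.closedBall (0 : ℂ) B
      · rw [indicator_of_mem hz] at h2 ⊢
        have h3 := Real.rpow_le_rpow (norm_nonneg _) h2 (by linarith : 0 ≤ r)
        refine h3.trans ?_
        have h4 := Real.rpow_le_rpow_of_exponent_ge hη0 hη1 hr.le
        rw [Real.rpow_one] at h4
        exact h4
      · rw [indicator_of_notMem hz] at h2 ⊢
        have h3 := le_antisymm h2 (norm_nonneg _)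
        simp only
        rw [h3, Real.zero_rpow (by linarith)]
  refine ⟨n, fun j => cellOf s ⁻¹' {((e j : {p // p ∈ F}) : ℤ × ℤ)}, fun j => h (ctr s (e j)),
    fun j => measurable_cellOf s (measurableSet_singleton _), fun j => ?_, fun j => ?_,
    fun i j hij => ?_, hint r₁ hr₁, hint r₂ hr₂, hint r₃ hr₃⟩
  · refine (Metric.isBounded_closedBall (x := (0 : ℂ)) (r := B)).subset fun z hz => ?_
    rw [mem_preimage, mem_singleton_iff] at hz
    rw [mem_closedBall_zero_iff]
    apply hFin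
    rw [hz]
    exact (e j).2
  · refine lt_of_lt_of_le ?_ (measure_mono (cellOf_ball hs0 _))
    exact Metric.measure_ball_pos _ _ (by positivity)
  · refine Set.disjoint_left.2 fun z hi hj => hij ?_
    rw [mem_preimage, mem_singleton_iff] at hi hj
    exact e.injective (Subtype.ext (hi.symm.trans hj))

end Pool.Agent.Helper89.BA
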