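import Pool.Agent.Helper28.BA.GoalsA

/-! # BA, packet BARR (A2): a barrier -/

set_option autoImplicit false

open Complex MeasureTheory Set Filter Topology

namespace Pool.Agent.Helper89.BA

open Pool.Agent.Helper28.BA

theorem cvx_norm {h : ℝ → ℝ} (hc : ConvexOn ℝ (Ici 0) h) (hm : MonotoneOn h (Ici 0)) :
    ConvexOn ℝ univ (fun z : ℂ => h ‖z‖) := by
  refine ⟨convex_univ, fun x _ y _ a b ha hb hab => ?_⟩
  have h1 : ‖a • x + b • y‖ ≤ a * ‖x‖ + b * ‖y‖ := by
    refine (norm_add_le _ _).trans ?_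
    rw [norm_smul, norm_smul, Real.norm_of_nonneg ha, Real.norm_of_nonneg hb]
  have h2 : (0 : ℝ) ≤ a * ‖x‖ + b * ‖y‖ := by positivity
  refine (hm (mem_Ici.2 (norm_nonneg _)) (mem_Ici.2 h2) h1).trans ?_
  exact hc.2 (mem_Ici.2 (norm_nonneg x)) (mem_Ici.2 (norm_nonneg y)) ha hb hab

theorem cvx_of_deriv {h h' : ℝ → ℝ} (hd : ∀ r, HasDerivAt h (h' r) r)
    (hm : MonotoneOn h' (Ici 0)) (h0 : ∀ r, 0 ≤ r → 0 ≤ h' r) :
    ConvexOn ℝ univ (fun z : ℂ => h ‖z‖) := by
  have hcont : ContinuousOn h (Ici 0) := fun r _ => (hd r).continuousAt.continuousWithinAt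
  have hdiff : DifferentiableOn ℝ h (interior (Ici 0)) := fun r _ =>
    (hd r).differentiableAt.differentiableWithinAt
  have hderiv : deriv h = h' := funext fun r => (hd r).deriv
  refine cvx_norm ?_ ?_
  · refine MonotoneOn.convexOn_of_deriv (convex_Ici 0) hcont hdiff ?_
    rw [hderiv]
    exact hm.mono interior_subset
  · refine monotoneOn_of_deriv_nonneg (convex_Ici 0) hcont hdiff fun x hx => ?_
    rw [hderiv]
    exact h0 x (interior_subset hx)

theorem hasDerivAt_pos_sq (t : ℝ) : HasDerivAt (fun s : ℝ => (max s 0) ^ 2) (2 * max t 0) t := by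
  rcases lt_trichotomy t 0 with h | h | h
  · have h1 : (fun s : ℝ => (max s 0) ^ 2) =ᶠ[𝓝 t] fun _ => (0 : ℝ) := by
      filter_upwards [Iio_mem_nhds h] with s hs
      rw [max_eq_right (le_of_lt (mem_Iio.1 hs))]
      norm_num
    rw [max_eq_right h.le, mul_zero]
    exact (hasDerivAt_const t (0 : ℝ)).congr_of_eventuallyEq h1
  · subst h
    rw [max_self, mul_zero]
    rw [hasDerivAt_iff_isLittleO_nhds_zero]
    have h1 : (fun h : ℝ => (max (0 + h) 0) ^ 2 - (max 0 0) ^ 2 - h • (0 : ℝ)) =O[𝓝 0]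
        fun h : ℝ => h ^ 2 := by
      refine Asymptotics.IsBigO.of_bound 1 (Filter.Eventually.of_forall fun s => ?_)
      simp only [zero_add, max_self, smul_zero, sub_zero, one_mul, norm_pow, Real.norm_eq_abs]
      have h2 : |max s 0| ≤ |s| := by
        rw [abs_of_nonneg (le_max_right s 0)]
        exact max_le (le_abs_self s) (abs_nonneg s)
      have h3 : |max s 0| ^ 2 - (0 : ℝ) ^ 2 ≤ |s| ^ 2 := by
        have := pow_le_pow_left₀ (abs_nonneg _) h2 2
        linarith
      have h4 : |(max s 0) ^ 2 - 0 ^ 2| = |max s 0| ^ 2 := by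
        rw [zero_pow two_ne_zero, sub_zero, abs_pow]
      rw [h4]
      exact pow_le_pow_left₀ (abs_nonneg _) h2 2
    refine h1.trans_isLittleO ?_
    exact Asymptotics.isLittleO_pow_id one_lt_two
  · have h1 : (fun s : ℝ => (max s 0) ^ 2) =ᶠ[𝓝 t] fun s => s ^ 2 := by
      filter_upwards [Ioi_mem_nhds h] with s hs
      rw [max_eq_left (le_of_lt (mem_Ioi.1 hs))]
    rw [max_eq_left h.le]
    have h2 := hasDerivAt_pow 2 t
    simp only [Nat.cast_ofNat, Nat.add_one_sub_one, pow_one] at h2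
    exact h2.congr_of_eventuallyEq h1

/-- the profile -/
noncomputable def mm (R r : ℝ) : ℝ := max (R ^ 2 - r ^ 2) 0

theorem hasDerivAt_mm (R r : ℝ) : HasDerivAt (fun s => (mm R s) ^ 2) (-4 * r * mm R r) r := by
  have h1 : HasDerivAt (fun s : ℝ => R ^ 2 - s ^ 2) (-(2 * r)) r := by
    have h2 := (hasDerivAt_pow 2 r).const_sub (R ^ 2)
    simp only [Nat.cast_ofNat, Nat.add_one_sub_one, pow_one] at h2
    exact h2
  have h3 := (hasDerivAt_pos_sq (R ^ 2 - r ^ 2)).comp r h1
  have h4 : -4 * r * mm R r = 2 * max (R ^ 2 - r ^ 2) 0 * -(2 * r) := by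
    unfold mm; ring
  rw [h4]
  exact h3

/-- **BARR (A2)** -/
theorem BARR : S_BARR := by
  intro u hu hsupp
  obtain ⟨M, hM⟩ := hsupp.exists_bound_of_continuous hu
  have hM0 : 0 ≤ M := (norm_nonneg _).trans (hM 0)
  obtain ⟨ρ, hρ⟩ := hsupp.isCompact.isBounded.subset_closedBall (0 : ℂ)
  set R : ℝ := 2 * |ρ| + 29 * M + 1 with hR
  have hρ0 : 0 ≤ |ρ| := abs_nonneg _
  have hR1 : 1 ≤ R := by rw [hR]; linarith
  have hR0 : 0 < R := by linarith
  have hRρ : 2 * |ρ| ≤ R := by rw [hR]; linarith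
  have hRM : 29 * M ≤ R := by rw [hR]; linarith
  set c : ℝ := 1 / (16 * R ^ 2) with hc
  have hc0 : 0 < c := by rw [hc]; positivity
  have hcR : c * R ^ 2 = 1 / 16 := by
    rw [hc]; field_simp
  have hmm0 : ∀ r, 0 ≤ mm R r := fun r => le_max_right _ _
  have hmmR : ∀ r, mm R r ≤ R ^ 2 := fun r => max_le (by nlinarith [sq_nonneg r]) (sq_nonneg R)
  have hsq : ∀ r, HasDerivAt (fun s : ℝ => s ^ 2 / 2) r r := by
    intro r
    have h2 := (hasDerivAt_pow 2 r).div_const 2
    simp only [Nat.cast_ofNat, Nat.add_one_sub_one, pow_one] at h2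
    have h3 : 2 * r / 2 = r := by ring
    rw [h3] at h2
    exact h2
  have hnz : ∀ r s, 0 ≤ r → r ≤ s → (mm R s = R ^ 2 - s ^ 2 ∧ mm R r = R ^ 2 - r ^ 2 ∧ s ≤ R) ∨
      (mm R s = 0 ∧ R ≤ s) := by
    intro r s hr hrs
    rcases le_total s R with h | h
    · left
      have h1 : 0 ≤ R ^ 2 - s ^ 2 := by nlinarith
      have h2 : 0 ≤ R ^ 2 - r ^ 2 := by nlinarith
      exact ⟨max_eq_left h1, max_eq_left h2, h⟩
    · right
      exact ⟨max_eq_right (by nlinarith), h⟩
  refine ⟨fun z => c * (mm R ‖z‖) ^ 2, ?_, ?_, ?_, ?_, ?_⟩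
  · unfold mm
    fun_prop
  · refine HasCompactSupport.intro (isCompact_closedBall (0 : ℂ) R) fun z hz => ?_
    rw [mem_closedBall_zero_iff, not_le] at hz
    have h1 : mm R ‖z‖ = 0 := max_eq_right (by nlinarith)
    simp only [h1]
    norm_num
  · intro z
    by_cases hz : u z = 0
    · rw [hz, abs_zero]
      positivity
    · have h1 : z ∈ Metric.closedBall (0 : ℂ) ρ := hρ (subset_tsupport u hz)
      rw [mem_closedBall_zero_iff] at h1
      have h2 : ‖z‖ ≤ |ρ| := h1.trans (le_abs_self ρ)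
      have h3 : ‖z‖ ^ 2 ≤ R ^ 2 / 4 := by nlinarith [norm_nonneg z]
      have h4 : 3 / 4 * R ^ 2 ≤ mm R ‖z‖ := le_trans (by linarith) (le_max_left _ _)
      have h5 : (3 / 4 * R ^ 2) ^ 2 ≤ (mm R ‖z‖) ^ 2 :=
        pow_le_pow_left₀ (by positivity) h4 2
      have h6 : c * (3 / 4 * R ^ 2) ^ 2 = 9 / 256 * R ^ 2 := by
        have : c * (3 / 4 * R ^ 2) ^ 2 = 9 / 16 * (c * R ^ 2) * R ^ 2 := by ring
        rw [this, hcR]; ring
      have h7 : c * (3 / 4 * R ^ 2) ^ 2 ≤ c * (mm R ‖z‖) ^ 2 :=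
        mul_le_mul_of_nonneg_left h5 hc0.le
      have h8 : |u z| ≤ M := hM z
      nlinarith
  · have h1 := cvx_of_deriv (h := fun r => r ^ 2 / 2 - c * (mm R r) ^ 2)
      (h' := fun r => r - c * (-4 * r * mm R r))
      (fun r => (hsq r).sub ((hasDerivAt_mm R r).const_mul c)) ?_ ?_
    · exact h1
    · intro r hr s hs hrs
      have hr0 : (0 : ℝ) ≤ r := hr
      simp only
      rcases hnz r s hr0 hrs with ⟨e1, e2, e3⟩ | ⟨e1, e3⟩
      · rw [e1, e2]
        have key : s - c * (-4 * s * (R ^ 2 - s ^ 2)) - (r - c * (-4 * r * (R ^ 2 - r ^ 2))) =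
            (s - r) * (1 + 4 * (c * R ^ 2) - 4 * c * (s ^ 2 + s * r + r ^ 2)) := by ring
        have h3 : s ^ 2 + s * r + r ^ 2 ≤ 3 * R ^ 2 := by nlinarith
        have h4 : c * (s ^ 2 + s * r + r ^ 2) ≤ c * (3 * R ^ 2) :=
          mul_le_mul_of_nonneg_left h3 hc0.le
        have h5 : 0 ≤ 1 + 4 * (c * R ^ 2) - 4 * c * (s ^ 2 + s * r + r ^ 2) := by nlinarith
        have h6 := mul_nonneg (sub_nonneg.2 hrs) h5
        linarith
      · rw [e1]
        rcases le_total R r with h | h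
        · have e2 : mm R r = 0 := max_eq_right (by nlinarith)
          rw [e2]
          linarith
        · have e2 : mm R r = R ^ 2 - r ^ 2 := max_eq_left (by nlinarith)
          rw [e2]
          have h3 : c * (4 * r * (R ^ 2 - r ^ 2)) ≤ R - r := by
            have h4 : 4 * r * (R ^ 2 - r ^ 2) ≤ 8 * R ^ 2 * (R - r) := by
              have : 8 * R ^ 2 * (R - r) - 4 * r * (R ^ 2 - r ^ 2) =
                  (R - r) * (8 * R ^ 2 - 4 * r * (R + r)) := by ring
              have h5 : 0 ≤ 8 * R ^ 2 - 4 * r * (R + r) := by nlinarith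
              nlinarith [mul_nonneg (sub_nonneg.2 h) h5]
            have h6 := mul_le_mul_of_nonneg_left h4 hc0.le
            have h7 : c * (8 * R ^ 2 * (R - r)) = 1 / 2 * (R - r) := by
              have : c * (8 * R ^ 2 * (R - r)) = 8 * (c * R ^ 2) * (R - r) := by ring
              rw [this, hcR]; ring
            have h8 : 0 ≤ R - r := sub_nonneg.2 h
            linarith
          have h9 : r - c * (-4 * r * (R ^ 2 - r ^ 2)) = r + c * (4 * r * (R ^ 2 - r ^ 2)) := by
            ring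
          rw [h9]
          linarith
    · intro r hr
      have h3 : 0 ≤ c * (4 * r * mm R r) := by
        have := hmm0 r
        positivity
      have h9 : r - c * (-4 * r * mm R r) = r + c * (4 * r * mm R r) := by ring
      rw [h9]
      linarith
  · have h1 := cvx_of_deriv (h := fun r => r ^ 2 / 2 - -(c * (mm R r) ^ 2))
      (h' := fun r => r - -(c * (-4 * r * mm R r)))
      (fun r => (hsq r).sub ((hasDerivAt_mm R r).const_mul c).neg) ?_ ?_
    · exact h1
    · intro r hr s hs hrs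
      have hr0 : (0 : ℝ) ≤ r := hr
      simp only
      rcases hnz r s hr0 hrs with ⟨e1, e2, e3⟩ | ⟨e1, e3⟩
      · rw [e1, e2]
        have key : s - -(c * (-4 * s * (R ^ 2 - s ^ 2))) -
            (r - -(c * (-4 * r * (R ^ 2 - r ^ 2)))) =
            (s - r) * (1 - 4 * (c * R ^ 2) + 4 * (c * (s ^ 2 + s * r + r ^ 2))) := by ring
        have h4 : 0 ≤ c * (s ^ 2 + s * r + r ^ 2) := by
          have : 0 ≤ s := hr0.trans hrs
          positivity
        have h5 : 0 ≤ 1 - 4 * (c * R ^ 2) + 4 * (c * (s ^ 2 + s * r + r ^ 2)) := by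
          rw [hcR]; linarith
        have h6 := mul_nonneg (sub_nonneg.2 hrs) h5
        linarith
      · rw [e1]
        have h3 : 0 ≤ c * (4 * r * mm R r) := by
          have := hmm0 r
          positivity
        have h9 : r - -(c * (-4 * r * mm R r)) = r - c * (4 * r * mm R r) := by ring
        have h10 : s - -(c * (-4 * s * 0)) = s := by ring
        rw [h9, h10]
        linarith
    · intro r hr
      have h9 : r - -(c * (-4 * r * mm R r)) = r * (1 - 4 * (c * mm R r)) := by ring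
      rw [h9]
      have h3 : c * mm R r ≤ c * R ^ 2 := mul_le_mul_of_nonneg_left (hmmR r) hc0.le
      refine mul_nonneg hr ?_
      linarith

end Pool.Agent.Helper89.BA
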